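import Pool.Agent.V11109.Kothe.Example

/-!
# A Köthe algebra which is approximately contractible but not nuclear

The Köthe set consists of the powers of one weight `w ≥ 1`, which takes the value `X l` on a block
of `(X l) ^ l` indices, where `X (l + 1) = (X l) ^ (6 l + 6)`. No power of `1 / w` is summable, so
the Köthe space is not nuclear. The indicator functions `e n` of the first blocks satisfy
`(1 + ‖e n‖_p) ‖a - a (e n)‖_p → 0` for all `a` and all `p`, and this gives approximate
contractibility.
-/

set_option autoImplicit false

namespace Pool.Agent.Results.MP_07c133_an.NonNuclearApproxContractible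

open Pool.Agent.V11109.Kothe

universe v

/-- There is a Köthe set `P` (on a countable index set) such that `λ(P)` is a Köthe algebra which
is approximately contractible but not nuclear. -/
theorem result : ∃ (I : Type) (_ : Countable I) (P : KotheSet I) (h : IsKotheAlgebra P),
    ApproximatelyContractible.{0, v} (KotheAlg P h) ∧ ¬ IsNuclearSpace (KotheAlg P h) :=
  ⟨Ix, inferInstance, P, isKothe, approx_A, not_nuclear_A⟩

end Pool.Agent.Results.MP_07c133_an.NonNuclearApproxContractible
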